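import Pool.Agent.H336Sel.Order
import Pool.Agent.H469R10.HO.Stmts2

/-!
# Task F of the SELBERG-PROJECT: from a theta relation to an entire function
-/

open MeasureTheory Set Filter Topology Complex

namespace Pool.Agent.H336R4.F469

/-- Data of a theta relation of weight `k`. -/
structure Dat (c k : ℝ) where
  A : ℕ → ℝ
  u : ℕ → ℝ
  ε : ℝ
  hε : ε = 1 ∨ ε = -1
  A0 : A 0 = 0
  hu : ∀ n, n ≠ 0 → c ≤ u n
  hs : Summable fun n => |A n| * (u n) ^ (-(k-1))
  feq : ∀ t : ℝ, 0 < t → ∑' n, A n * Real.exp (-(u n / t)) = ε * t ^ k * ∑' n, A n * Real.exp (-(u n * t))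

variable {c k : ℝ} (D : Dat c k)

lemma Dat.upos (hc : 0 < c) {n : ℕ} (hn : n ≠ 0) : 0 < D.u n := hc.trans_le (D.hu n hn)

lemma rpow_mul_exp_le {a t : ℝ} (ha : 0 < a) (ht : 0 < t) : ∃ C : ℝ, 0 ≤ C ∧ ∀ u : ℝ, 0 < u →
    u ^ a * Real.exp (-(u * t)) ≤ C := by
  obtain ⟨N, hN⟩ := exists_nat_ge a
  refine ⟨1 + (N.factorial : ℝ) / t ^ N, by positivity, fun u hu => ?_⟩
  have h1 : u ^ a ≤ 1 + u ^ N := by
    rcases le_total u 1 with h | h
    · have : u ^ a ≤ 1 := Real.rpow_le_one hu.le h ha.le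
      have : 0 ≤ u ^ N := by positivity
      linarith
    · have : u ^ a ≤ u ^ (N:ℝ) := Real.rpow_le_rpow_of_exponent_le h hN
      rw [Real.rpow_natCast] at this
      linarith
  have h2 : (u * t) ^ N / N.factorial ≤ Real.exp (u * t) := Real.pow_div_factorial_le_exp _ (by positivity) _
  have h3 : u ^ N * Real.exp (-(u * t)) ≤ N.factorial / t ^ N := by
    rw [Real.exp_neg, ← div_eq_mul_inv, div_le_div_iff₀ (Real.exp_pos _) (by positivity)]
    rw [div_le_iff₀ (by positivity), mul_pow] at h2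
    linarith
  have h4 : Real.exp (-(u * t)) ≤ 1 := Real.exp_le_one_iff.2 (by have := mul_pos hu ht; linarith)
  calc u ^ a * Real.exp (-(u * t)) ≤ (1 + u ^ N) * Real.exp (-(u * t)) := by gcongr
    _ = Real.exp (-(u * t)) + u ^ N * Real.exp (-(u * t)) := by ring
    _ ≤ _ := by linarith

lemma Dat.hse (hc : 0 < c) (hk : 1 < k) {t : ℝ} (ht : 0 < t) :
    Summable fun n : ℕ => |D.A n| * Real.exp (-(t * D.u n)) := by
  obtain ⟨C, hC0, hC⟩ := rpow_mul_exp_le (a := k - 1) (by linarith) ht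
  refine Summable.of_nonneg_of_le (fun n => by positivity) ?_ (D.hs.mul_left C)
  intro n
  rcases eq_or_ne n 0 with rfl | hn
  · simp [D.A0]
  have hu := D.upos hc hn
  have h1 := hC (D.u n) hu
  have h2 : Real.exp (-(t * D.u n)) ≤ C * (D.u n) ^ (-(k-1)) := by
    rw [Real.rpow_neg hu.le, ← div_eq_mul_inv, le_div_iff₀ (by positivity)]
    rw [mul_comm t]
    linarith
  calc |D.A n| * Real.exp (-(t * D.u n)) ≤ |D.A n| * (C * (D.u n) ^ (-(k-1))) := by gcongr
    _ = _ := by ring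

lemma Dat.hl (hc : 0 < c) {x : ℝ} (hx : k - 1 ≤ x) :
    Summable fun n : ℕ => |D.A n| / (D.u n) ^ x := by
  refine Summable.of_norm_bounded (D.hs.mul_left (c ^ (-(x - (k-1))))) ?_
  intro n
  rcases eq_or_ne n 0 with rfl | hn
  · simp [D.A0]
  have hu := D.upos hc hn
  rw [Real.norm_eq_abs, abs_of_nonneg (by positivity)]
  rw [div_eq_mul_inv, ← Real.rpow_neg hu.le]
  have e : -x = -(x - (k-1)) + -(k-1) := by ring
  rw [e, Real.rpow_add hu]
  have h1 : (D.u n) ^ (-(x - (k-1))) ≤ c ^ (-(x - (k-1))) :=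
    Real.rpow_le_rpow_of_nonpos hc (D.hu n hn) (by linarith)
  calc |D.A n| * ((D.u n) ^ (-(x - (k-1))) * (D.u n) ^ (-(k-1)))
      ≤ |D.A n| * (c ^ (-(x - (k-1))) * (D.u n) ^ (-(k-1))) := by gcongr
    _ = _ := by ring

/-- Theta series. -/
noncomputable def Dat.Ψ (t : ℝ) : ℝ := ∑' n : ℕ, D.A n * Real.exp (-(t * D.u n))

lemma Dat.hasSum_Ψ (hc : 0 < c) (hk : 1 < k) {t : ℝ} (ht : 0 < t) :
    HasSum (fun n : ℕ => D.A n * Real.exp (-(t * D.u n))) (D.Ψ t) := by
  apply Summable.hasSum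
  apply Summable.of_norm
  refine (D.hse hc hk ht).congr fun n => ?_
  rw [Real.norm_eq_abs, abs_mul, abs_of_pos (Real.exp_pos _)]

lemma Dat.Ψ_feq {t : ℝ} (ht : 0 < t) : D.Ψ (1 / t) = D.ε * t ^ k * D.Ψ t := by
  have h := D.feq t ht
  unfold Dat.Ψ
  have e1 : ∀ n, D.A n * Real.exp (-(1 / t * D.u n)) = D.A n * Real.exp (-(D.u n / t)) := by
    intro n; congr 2; ring
  have e2 : ∀ n, D.A n * Real.exp (-(t * D.u n)) = D.A n * Real.exp (-(D.u n * t)) := by
    intro n; congr 2; ring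
  simp_rw [e1, e2]
  exact h

lemma Dat.continuousOn (hc : 0 < c) (hk : 1 < k) : ContinuousOn D.Ψ (Ioi 0) := by
  intro t ht
  have ht : 0 < t := ht
  apply ContinuousAt.continuousWithinAt
  have : ContinuousOn D.Ψ (Ioi (t/2)) := by
    unfold Dat.Ψ
    apply continuousOn_tsum (u := fun n => |D.A n| * Real.exp (-(t/2 * D.u n)))
    · intro n
      fun_prop
    · exact D.hse hc hk (by positivity)
    · intro n x hx
      rw [Real.norm_eq_abs, abs_mul, abs_of_pos (Real.exp_pos _)]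
      rcases eq_or_ne n 0 with rfl | hn
      · simp [D.A0]
      apply mul_le_mul_of_nonneg_left _ (abs_nonneg _)
      apply Real.exp_le_exp.2
      have hx : t / 2 < x := hx
      have := (D.upos hc hn).le
      nlinarith
  exact this.continuousAt (Ioi_mem_nhds (by linarith))

lemma Dat.bound (hc : 0 < c) (hk : 1 < k) {t : ℝ} (ht : 1 ≤ t) :
    |D.Ψ t| ≤ (Real.exp c * ∑' n, |D.A n| * Real.exp (-(1 * D.u n))) * Real.exp (-c * t) := by
  have h1 := D.hasSum_Ψ hc hk (by linarith : 0 < t)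
  have h2 := (D.hse hc hk one_pos).mul_left (Real.exp c * Real.exp (-c * t))
  have h3 : ∀ n, ‖D.A n * Real.exp (-(t * D.u n))‖ ≤
      Real.exp c * Real.exp (-c * t) * (|D.A n| * Real.exp (-(1 * D.u n))) := by
    intro n
    rw [Real.norm_eq_abs, abs_mul, abs_of_pos (Real.exp_pos _)]
    rcases eq_or_ne n 0 with rfl | hn
    · simp [D.A0]
    have h4 := D.hu n hn
    have h5 : Real.exp (-(t * D.u n)) ≤ Real.exp c * Real.exp (-c * t) * Real.exp (-(1 * D.u n)) := by
      rw [← Real.exp_add, ← Real.exp_add]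
      apply Real.exp_le_exp.2
      nlinarith
    calc |D.A n| * Real.exp (-(t * D.u n)) ≤ |D.A n| * (Real.exp c * Real.exp (-c * t) * Real.exp (-(1 * D.u n))) := by gcongr
      _ = _ := by ring
  have h6 := tsum_of_norm_bounded h2.hasSum h3
  rw [tsum_mul_left] at h6
  have h7 : ‖∑' n, D.A n * Real.exp (-(t * D.u n))‖ = |D.Ψ t| := rfl
  rw [h7] at h6
  linarith

lemma Dat.isBigO (hc : 0 < c) (hk : 1 < k) (r : ℝ) :
    (fun t : ℝ => (D.Ψ t : ℂ)) =O[atTop] (fun t : ℝ => t ^ r) := by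
  have h1 : (fun t : ℝ => (D.Ψ t : ℂ)) =O[atTop] (fun t : ℝ => Real.exp (-c * t)) := by
    apply Asymptotics.IsBigO.of_bound (Real.exp c * ∑' n, |D.A n| * Real.exp (-(1 * D.u n)))
    filter_upwards [eventually_ge_atTop 1] with t ht
    rw [Complex.norm_real, Real.norm_eq_abs, Real.norm_of_nonneg (Real.exp_pos _).le]
    exact D.bound hc hk ht
  exact h1.trans (isLittleO_exp_neg_mul_rpow_atTop hc r).isBigO

lemma Dat.ε_ne : (D.ε : ℂ) ≠ 0 := by
  rcases D.hε with h | h <;> rw [h] <;> norm_num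

lemma Dat.norm_ε : ‖(D.ε : ℂ)‖ = 1 := by
  rcases D.hε with h | h <;> rw [h] <;> norm_num

/-- The FE pair. -/
noncomputable def Dat.pair (hc : 0 < c) (hk : 1 < k) : WeakFEPair ℂ where
  f := fun t => (D.Ψ t : ℂ)
  g := fun t => (D.Ψ t : ℂ)
  k := k
  ε := (D.ε : ℂ)
  f₀ := 0
  g₀ := 0
  hf_int := (Complex.continuous_ofReal.comp_continuousOn (D.continuousOn hc hk)).locallyIntegrableOn measurableSet_Ioi
  hg_int := (Complex.continuous_ofReal.comp_continuousOn (D.continuousOn hc hk)).locallyIntegrableOn measurableSet_Ioi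
  hk := by linarith
  hε := D.ε_ne
  h_feq := by
    intro x hx
    rw [D.Ψ_feq hx]
    push_cast
    simp
  hf_top := by
    intro r
    simpa using D.isBigO hc hk r
  hg_top := by
    intro r
    simpa using D.isBigO hc hk r

lemma Dat.strong (hc : 0 < c) (hk : 1 < k) : IsStrongFEPair (D.pair hc hk) := ⟨rfl, rfl⟩

/-- Completed function. -/
noncomputable def Dat.Λ (z : ℂ) : ℂ := mellin (fun t : ℝ => (D.Ψ t : ℂ)) z

lemma Dat.Λ_eq (hc : 0 < c) (hk : 1 < k) : (D.pair hc hk).Λ = D.Λ := (D.strong hc hk).Λ_eq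

lemma Dat.differentiable_Λ (hc : 0 < c) (hk : 1 < k) : Differentiable ℂ D.Λ := by
  rw [← D.Λ_eq hc hk]; exact (D.strong hc hk).differentiable_Λ

lemma Dat.Λ_feq (hc : 0 < c) (hk : 1 < k) (z : ℂ) : D.Λ (k - z) = D.ε * D.Λ z := by
  have h1 := (D.pair hc hk).functional_equation z
  have h2 : (D.pair hc hk).symm.Λ = D.Λ := (D.strong hc hk).symm_Λ_eq
  rw [h2, D.Λ_eq hc hk] at h1
  have h3 : (D.pair hc hk).k = k := rfl
  have h4 : (D.pair hc hk).ε = (D.ε : ℂ) := rfl
  rw [h3, h4] at h1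
  simpa using h1

lemma Dat.Λ_feq' (hc : 0 < c) (hk : 1 < k) (z : ℂ) : D.Λ z = D.ε * D.Λ (k - z) := by
  have := D.Λ_feq hc hk (k - z)
  rw [show (k:ℂ) - (k - z) = z by ring] at this
  exact this

lemma Dat.Λ_conj (z : ℂ) : D.Λ ((starRingEnd ℂ) z) = (starRingEnd ℂ) (D.Λ z) := by
  unfold Dat.Λ mellin
  rw [← integral_conj]
  apply setIntegral_congr_fun measurableSet_Ioi
  intro t ht
  have ht : 0 < t := ht
  simp only [smul_eq_mul, map_mul, Complex.conj_ofReal]
  congr 1
  have h := Complex.cpow_conj (t:ℂ) (z - 1)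
    (by rw [Complex.arg_ofReal_of_nonneg ht.le]; exact Real.pi_pos.ne)
  rw [Complex.conj_ofReal, map_sub, map_one] at h
  exact h

lemma Dat.Λ_sum (hc : 0 < c) (hk : 1 < k) {z : ℂ} (hz : k < z.re) :
    HasSum (fun n : ℕ => Complex.Gamma z * (D.A n : ℂ) / ((D.u n : ℝ) : ℂ) ^ z) (D.Λ z) := by
  apply hasSum_mellin
  · intro n
    rcases eq_or_ne n 0 with rfl | hn
    · left; simp [D.A0]
    · right; exact D.upos hc hn
  · linarith
  · intro t ht
    have := D.hasSum_Ψ hc hk (t := t) ht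
    have h2 := this.mapL Complex.ofRealCLM
    simp only [Complex.ofRealCLM_apply] at h2
    convert! h2 using 2 with n
    push_cast
    congr 2
    ring
  · refine (D.hl hc (x := z.re) (by linarith)).congr fun n => ?_
    rw [Complex.norm_real, Real.norm_eq_abs]

lemma Dat.Λ_strip (hc : 0 < c) (hk : 1 < k) (x₀ x₁ : ℝ) : ∃ C : ℝ, 0 ≤ C ∧ ∀ z : ℂ, x₀ ≤ z.re → z.re ≤ x₁ →
    ‖D.Λ z‖ ≤ C := by
  have hconv : ∀ s : ℂ, IntegrableOn (fun t : ℝ => (t:ℂ) ^ (s - 1) • (D.Ψ t : ℂ)) (Ioi 0) := by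
    intro s
    exact ((D.strong hc hk).hasMellin s).1
  have hreal : ∀ x : ℝ, IntegrableOn (fun t : ℝ => t ^ (x - 1) * |D.Ψ t|) (Ioi 0) := by
    intro x
    refine IntegrableOn.congr_fun (hconv x).norm ?_ measurableSet_Ioi
    intro t ht
    have ht : 0 < t := ht
    simp only [norm_smul, Complex.norm_real, Real.norm_eq_abs]
    rw [Complex.norm_cpow_eq_rpow_re_of_pos ht]
    simp
  refine ⟨(∫ t in Ioi (0:ℝ), t ^ (x₀ - 1) * |D.Ψ t|) + ∫ t in Ioi (0:ℝ), t ^ (x₁ - 1) * |D.Ψ t|, ?_, ?_⟩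
  · apply add_nonneg
    · exact setIntegral_nonneg measurableSet_Ioi fun t ht => mul_nonneg (Real.rpow_nonneg (le_of_lt ht) _) (abs_nonneg _)
    · exact setIntegral_nonneg measurableSet_Ioi fun t ht => mul_nonneg (Real.rpow_nonneg (le_of_lt ht) _) (abs_nonneg _)
  · intro z h0 h1
    unfold Dat.Λ mellin
    refine (norm_integral_le_integral_norm _).trans ?_
    rw [← integral_add (hreal x₀) (hreal x₁)]
    apply setIntegral_mono_on (hconv z).norm ((hreal x₀).add (hreal x₁)) measurableSet_Ioi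
    intro t ht
    have ht : 0 < t := ht
    simp only [norm_smul, Complex.norm_real, Real.norm_eq_abs]
    show _ ≤ t ^ (x₀ - 1) * |D.Ψ t| + t ^ (x₁ - 1) * |D.Ψ t|
    rw [Complex.norm_cpow_eq_rpow_re_of_pos ht, ← add_mul]
    apply mul_le_mul_of_nonneg_right _ (abs_nonneg _)
    have hre : (z - 1).re = z.re - 1 := by simp
    rw [hre]
    rcases le_total t 1 with h | h
    · have h3 : t ^ (z.re - 1) ≤ t ^ (x₀ - 1) := Real.rpow_le_rpow_of_exponent_ge ht h (by linarith)
      have h4 : 0 ≤ t ^ (x₁ - 1) := Real.rpow_nonneg ht.le _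
      linarith
    · have h3 : t ^ (z.re - 1) ≤ t ^ (x₁ - 1) := Real.rpow_le_rpow_of_exponent_le h (by linarith)
      have h4 : 0 ≤ t ^ (x₀ - 1) := Real.rpow_nonneg ht.le _
      linarith

/-- The entire Dirichlet series in the variable `z`. -/
noncomputable def Dat.E (z : ℂ) : ℂ := D.Λ z * (Complex.Gamma z)⁻¹

lemma Dat.differentiable_E (hc : 0 < c) (hk : 1 < k) : Differentiable ℂ D.E :=
  (D.differentiable_Λ hc hk).mul Complex.differentiable_one_div_Gamma

lemma Dat.E_sum (hc : 0 < c) (hk : 1 < k) {z : ℂ} (hz : k < z.re) :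
    HasSum (fun n : ℕ => (D.A n : ℂ) / ((D.u n : ℝ) : ℂ) ^ z) (D.E z) := by
  have h := (D.Λ_sum hc hk hz).mul_right (Complex.Gamma z)⁻¹
  have hne : Complex.Gamma z ≠ 0 := Complex.Gamma_ne_zero_of_re_pos (by linarith)
  refine h.congr_fun fun n => ?_
  field_simp

lemma Dat.E_right (hc : 0 < c) (hk : 1 < k) {z : ℂ} (hz : k < z.re) :
    ‖D.E z‖ ≤ ∑' n : ℕ, |D.A n| / (D.u n) ^ z.re := by
  have h := D.E_sum hc hk hz
  rw [← h.tsum_eq]
  apply tsum_of_norm_bounded (D.hl hc (x := z.re) (by linarith)).hasSum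
  intro n
  rcases eq_or_ne n 0 with rfl | hn
  · simp [D.A0]
  · rw [norm_div, Complex.norm_real, Real.norm_eq_abs, Complex.norm_cpow_eq_rpow_re_of_pos (D.upos hc hn)]

lemma Dat.E_left (hc : 0 < c) (hk : 1 < k) (m : ℕ) (hm : k < m) {z : ℂ} (hz : z.re = k / 2 - m / 2) :
    ‖D.E z‖ ≤ (∑' n : ℕ, |D.A n| / (D.u n) ^ (k/2 + m/2)) * ∏ j ∈ Finset.range m, ‖z + j‖ := by
  have hre : ((k:ℂ) - z).re = k/2 + m/2 := by simp [hz]; ring
  have h1 : D.Λ z = D.ε * D.Λ (k - z) := D.Λ_feq' hc hk z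
  have h2 := D.E_right hc hk (z := k - z) (by rw [hre]; linarith)
  rw [hre] at h2
  have hne : Complex.Gamma (k - z) ≠ 0 := Complex.Gamma_ne_zero_of_re_pos (by rw [hre]; linarith)
  have h3 : D.Λ (k - z) = D.E (k - z) * Complex.Gamma (k - z) := by
    unfold Dat.E; field_simp
  have h4 : ‖Complex.Gamma (k - z)‖ = ‖Complex.Gamma (z + m)‖ := by
    have e : z + m = (starRingEnd ℂ) ((k:ℂ) - z) := by
      apply Complex.ext
      · simp [hz]; ring
      · simp
    rw [e, Complex.Gamma_conj, Complex.norm_conj]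
  have h5 : ‖D.E z‖ = ‖D.E (k - z)‖ * (‖Complex.Gamma (z + m)‖ * ‖(Complex.Gamma z)⁻¹‖) := by
    rw [show D.E z = D.Λ z * (Complex.Gamma z)⁻¹ from rfl, h1, h3, norm_mul, norm_mul, norm_mul, h4, D.norm_ε]
    ring
  rw [h5]
  exact mul_le_mul h2 (H336Sel.Gamma_shift_le z m) (by positivity) (le_trans (norm_nonneg _) h2)

theorem Dat.E_strip (hc : 0 < c) (hk : 1 < k) (x₀ x₁ : ℝ) : ∃ C M : ℝ, ∀ z : ℂ, x₀ ≤ z.re → z.re ≤ x₁ →
    ‖D.E z‖ ≤ C * (1 + |z.im|) ^ M := by
  obtain ⟨m, hm⟩ := exists_nat_gt (max k (max (k - 2 * x₀) (2 * x₁ - k)))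
  have hmk : k < m := lt_of_le_of_lt (le_max_left _ _) hm
  have hm0 : k - 2 * x₀ < m := lt_of_le_of_lt ((le_max_left _ _).trans (le_max_right _ _)) hm
  have hm1 : 2 * x₁ - k < m := lt_of_le_of_lt ((le_max_right _ _).trans (le_max_right _ _)) hm
  have hmpos : (0:ℝ) < m := by linarith
  set α := k / 2 - m / 2 with hα
  set β := k / 2 + m / 2 with hβ
  set C₁ := ∑' n : ℕ, |D.A n| / (D.u n) ^ β with hC₁
  have hC₁0 : 0 ≤ C₁ := tsum_nonneg fun n => by
    rcases eq_or_ne n 0 with rfl | hn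
    · simp [D.A0]
    have := (D.upos hc hn).le
    positivity
  set h : ℂ → ℂ := fun z => D.E z / (z + (m + 1)) ^ m with hh
  have hre1 : ∀ z : ℂ, α ≤ z.re → 1 ≤ (z + (m+1)).re := by
    intro z hz
    simp
    rw [hα] at hz
    linarith
  have hn1 : ∀ z : ℂ, α ≤ z.re → 1 ≤ ‖z + (m+1)‖ := fun z hz =>
    (hre1 z hz).trans ((le_abs_self _).trans (Complex.abs_re_le_norm _))
  have hne : ∀ z : ℂ, α ≤ z.re → (z + (m+1)) ^ m ≠ 0 := fun z hz =>
    pow_ne_zero _ (norm_pos_iff.1 (lt_of_lt_of_le one_pos (hn1 z hz)))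
  have hle : ∀ z : ℂ, α ≤ z.re → ‖h z‖ ≤ ‖D.E z‖ := by
    intro z hz
    rw [hh]
    simp only [norm_div, norm_pow]
    apply div_le_self (norm_nonneg _)
    exact one_le_pow₀ (hn1 z hz)
  have key : ∀ z : ℂ, α ≤ z.re → z.re ≤ β → ‖h z‖ ≤ C₁ := by
    intro z hza hzb
    apply PhragmenLindelof.vertical_strip (a := α) (b := β) (f := h) (C := C₁) ?_ ?_ ?_ ?_ hza hzb
    · apply DifferentiableOn.diffContOnCl
      intro w hw
      have hw' : w ∈ Complex.re ⁻¹' (Icc α β) := by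
        have : closure (Complex.re ⁻¹' (Ioo α β)) ⊆ Complex.re ⁻¹' (Icc α β) :=
          closure_minimal (preimage_mono Ioo_subset_Icc_self) (isClosed_Icc.preimage Complex.continuous_re)
        exact this hw
      apply DifferentiableAt.differentiableWithinAt
      apply DifferentiableAt.div
      · exact (D.differentiable_E hc hk) w
      · fun_prop
      · exact hne w hw'.1
    · refine ⟨Real.pi / (2 * m), ?_, 2 * m, ?_⟩
      · have : β - α = m := by rw [hα, hβ]; ring
        rw [this]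
        apply div_lt_div_of_pos_left Real.pi_pos hmpos
        linarith
      · obtain ⟨C₂, hC₂0, hC₂⟩ := D.Λ_strip hc hk α β
        obtain ⟨C₃, hC₃0, hC₃⟩ := H336Sel.inv_Gamma_strip α β
        apply Asymptotics.IsBigO.of_bound (C₂ * C₃)
        rw [Filter.eventually_inf_principal]
        have hev : ∀ᶠ z : ℂ in comap (_root_.abs ∘ Complex.im) atTop, 1 ≤ (_root_.abs ∘ Complex.im) z :=
          tendsto_comap.eventually (eventually_ge_atTop 1)
        filter_upwards [hev] with z hz1 hz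
        have hz1 : 1 ≤ |z.im| := hz1
        have ha : α ≤ z.re := (mem_preimage.1 hz).1.le
        have hb : z.re ≤ β := (mem_preimage.1 hz).2.le
        refine (hle z ha).trans ?_
        unfold Dat.E
        rw [norm_mul, Real.norm_of_nonneg (Real.exp_pos _).le]
        have h1 := hC₂ z ha hb
        have h2 := hC₃ z ha hb hz1
        have h3 : Real.exp (Real.pi * |z.im|) ≤ Real.exp (2 * m * Real.exp (Real.pi / (2 * m) * |z.im|)) := by
          apply Real.exp_le_exp.2
          have h4 : Real.pi / (2 * m) * |z.im| ≤ Real.exp (Real.pi / (2 * m) * |z.im|) :=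
            (by linarith [Real.add_one_le_exp (Real.pi / (2 * m) * |z.im|)])
          calc Real.pi * |z.im| = 2 * m * (Real.pi / (2 * m) * |z.im|) := by field_simp
            _ ≤ _ := by gcongr
        calc ‖D.Λ z‖ * ‖(Complex.Gamma z)⁻¹‖ ≤ C₂ * (C₃ * Real.exp (Real.pi * |z.im|)) :=
              mul_le_mul h1 h2 (norm_nonneg _) hC₂0
          _ ≤ C₂ * (C₃ * Real.exp (2 * m * Real.exp (Real.pi / (2 * m) * |z.im|))) := by gcongr
          _ = _ := by ring
    · intro w hw
      have hwα : α ≤ w.re := hw.ge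
      rw [hh]
      simp only [norm_div, norm_pow]
      have hpos : 0 < ‖w + (m+1)‖ ^ m := pow_pos (lt_of_lt_of_le one_pos (hn1 w hwα)) _
      rw [div_le_iff₀ hpos]
      refine (D.E_left hc hk m hmk (z := w) hw).trans ?_
      apply mul_le_mul_of_nonneg_left _ hC₁0
      calc ∏ j ∈ Finset.range m, ‖w + j‖ ≤ ∏ _j ∈ Finset.range m, ‖w + (m+1)‖ := by
            apply Finset.prod_le_prod (fun _ _ => norm_nonneg _)
            intro j hj
            have hj : (j:ℝ) < m := by exact_mod_cast Finset.mem_range.1 hj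
            have hj0 : (0:ℝ) ≤ j := Nat.cast_nonneg j
            rw [← Real.sqrt_sq (norm_nonneg (w + (m+1))), ← Real.sqrt_sq (norm_nonneg (w + j))]
            apply Real.sqrt_le_sqrt
            rw [← Complex.normSq_eq_norm_sq, ← Complex.normSq_eq_norm_sq, Complex.normSq_apply,
              Complex.normSq_apply]
            simp only [Complex.add_re, Complex.add_im, Complex.natCast_re, Complex.natCast_im,
              Complex.one_re, Complex.one_im, add_zero]
            have : w.re = k / 2 - m / 2 := hw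
            nlinarith
        _ = ‖w + (m+1)‖ ^ m := by simp
    · intro w hw
      have hwα : α ≤ w.re := by rw [hw]; linarith
      refine (hle w hwα).trans ?_
      have := D.E_right hc hk (z := w) (by rw [hw, hβ]; linarith)
      rw [hw] at this
      exact this
  refine ⟨C₁ * (m + 1 + |x₀| + |x₁| + 1) ^ m, m, fun z h0 h1 => ?_⟩
  have ha : α ≤ z.re := by rw [hα]; linarith
  have hb : z.re ≤ β := by rw [hβ]; linarith
  have h2 := key z ha hb
  have hpos : 0 < ‖z + (m+1)‖ ^ m := pow_pos (lt_of_lt_of_le one_pos (hn1 z ha)) _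
  rw [hh] at h2
  simp only [norm_div, norm_pow] at h2
  rw [div_le_iff₀ hpos] at h2
  refine h2.trans ?_
  rw [Real.rpow_natCast, mul_assoc, ← mul_pow]
  apply mul_le_mul_of_nonneg_left _ hC₁0
  apply pow_le_pow_left₀ (norm_nonneg _)
  have h3 : ‖z + (m+1)‖ ≤ ‖z‖ + (m + 1) := by
    refine (norm_add_le _ _).trans ?_
    have : ‖((m:ℂ) + 1)‖ = m + 1 := by
      have e : ((m:ℂ) + 1) = (((m:ℝ) + 1 : ℝ) : ℂ) := by push_cast; ring
      rw [e, Complex.norm_real, Real.norm_of_nonneg (by positivity)]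
    rw [this]
  have h4 : ‖z‖ ≤ |z.re| + |z.im| := Complex.norm_le_abs_re_add_abs_im z
  have h5 : |z.re| ≤ |x₀| + |x₁| := by
    rw [abs_le]
    constructor
    · have := neg_abs_le x₀
      have := abs_nonneg x₁
      linarith
    · have := le_abs_self x₁
      have := abs_nonneg x₀
      linarith
  have h6 := abs_nonneg z.im
  have h7 : 0 ≤ (m + 1 + |x₀| + |x₁|) * |z.im| := by positivity
  nlinarith

lemma Dat.E_right' (hc : 0 < c) (hk : 1 < k) {z : ℂ} (hz : k + 1 ≤ z.re) :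
    ‖D.E z‖ ≤ c ^ (-(z.re - (k - 1))) * ∑' n : ℕ, |D.A n| * (D.u n) ^ (-(k-1)) := by
  refine (D.E_right hc hk (by linarith)).trans ?_
  rw [← tsum_mul_left]
  apply Summable.tsum_le_tsum _ (D.hl hc (by linarith))
  · exact D.hs.mul_left _
  · intro n
    rcases eq_or_ne n 0 with rfl | hn
    · simp [D.A0]
    have hu := D.upos hc hn
    rw [div_eq_mul_inv, ← Real.rpow_neg hu.le]
    have e : -z.re = -(z.re - (k-1)) + -(k-1) := by ring
    rw [e, Real.rpow_add hu]
    have h1 : (D.u n) ^ (-(z.re - (k-1))) ≤ c ^ (-(z.re - (k-1))) :=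
      Real.rpow_le_rpow_of_nonpos hc (D.hu n hn) (by linarith)
    calc |D.A n| * ((D.u n) ^ (-(z.re - (k-1))) * (D.u n) ^ (-(k-1)))
        ≤ |D.A n| * (c ^ (-(z.re - (k-1))) * (D.u n) ^ (-(k-1))) := by gcongr
      _ = _ := by ring

/-- `E` has finite order. -/
theorem Dat.E_order (hc : 0 < c) (hk : 1 < k) : ∃ C : ℝ, 0 ≤ C ∧ ∀ z : ℂ, ‖D.E z‖ ≤ Real.exp (C * (1 + ‖z‖) ^ 2) := by
  obtain ⟨C₁, M, h₁⟩ := D.E_strip hc hk (-1) (k+1)
  set S := ∑' n : ℕ, |D.A n| * (D.u n) ^ (-(k-1)) with hS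
  have hS0 : 0 ≤ S := tsum_nonneg fun n => by
    rcases eq_or_ne n 0 with rfl | hn
    · simp [D.A0]
    have := (D.upos hc hn).le
    positivity
  set L := |Real.log c| with hL
  have hlog : 0 ≤ L := abs_nonneg _
  have hcx : ∀ x : ℝ, 0 ≤ x → c ^ (-x) ≤ Real.exp (L * x) := fun x hx => by
    rw [Real.rpow_def_of_pos hc]
    apply Real.exp_le_exp.2
    have := neg_abs_le (Real.log c)
    nlinarith
  have hSe : S ≤ Real.exp S := by linarith [Real.add_one_le_exp S]
  refine ⟨|C₁| + |M| + S + L * (k + 1) + (k + 3) ^ 2 + 9 + 4, by positivity, fun z => ?_⟩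
  have hn := norm_nonneg z
  have hre : |z.re| ≤ ‖z‖ := Complex.abs_re_le_norm z
  have him : |z.im| ≤ ‖z‖ := Complex.abs_im_le_norm z
  have hsq : 1 ≤ (1 + ‖z‖) ^ 2 := by nlinarith
  have hsq1 : 1 + ‖z‖ ≤ (1 + ‖z‖) ^ 2 := by nlinarith
  have hC0 := abs_nonneg C₁
  have hM0 := abs_nonneg M
  rcases lt_or_ge z.re (-1) with hz | hz
  · -- left
    have hre2 : ((k:ℂ) - z).re = k - z.re := by simp
    have h1 : D.Λ z = D.ε * D.Λ (k - z) := D.Λ_feq' hc hk z
    have h2 := D.E_right' hc hk (z := k - z) (by rw [hre2]; linarith)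
    rw [hre2] at h2
    have hne : Complex.Gamma (k - z) ≠ 0 := Complex.Gamma_ne_zero_of_re_pos (by rw [hre2]; linarith)
    have h3 : D.Λ (k - z) = D.E (k - z) * Complex.Gamma (k - z) := by
      unfold Dat.E; field_simp
    have h4 : ‖Complex.Gamma (k - z)‖ ≤ Real.exp ((k - z.re + 1) ^ 2) := by
      have := H336Sel.norm_Gamma_le (z := k - z) (by rw [hre2]; linarith)
      rw [hre2] at this
      exact this.trans (H336Sel.Gamma_le_exp (by linarith))
    have h5 : ‖(Complex.Gamma z)⁻¹‖ ≤ Real.exp ((2 - z.re) ^ 2) * Real.exp (Real.pi * |z.im|) := by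
      refine (H336Sel.inv_Gamma_le (by linarith : z.re ≤ 0)).trans ?_
      apply mul_le_mul_of_nonneg_right _ (Real.exp_pos _).le
      have := H336Sel.Gamma_le_exp (x := 1 - z.re) (by linarith)
      refine this.trans (Real.exp_le_exp.2 (le_of_eq (by ring)))
    have h6 : ‖D.E z‖ = ‖D.E (k - z)‖ * (‖Complex.Gamma (k - z)‖ * ‖(Complex.Gamma z)⁻¹‖) := by
      rw [show D.E z = D.Λ z * (Complex.Gamma z)⁻¹ from rfl, h1, h3, norm_mul, norm_mul, norm_mul, D.norm_ε]
      ring
    rw [h6]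
    have hx : -z.re ≤ ‖z‖ := (neg_le_abs _).trans hre
    have h2' : ‖D.E (k - z)‖ ≤ Real.exp (L * (k - z.re)) * Real.exp S := by
      refine h2.trans ?_
      have : c ^ (-(k - z.re - (k - 1))) ≤ Real.exp (L * (k - z.re)) := by
        refine (hcx _ (by linarith)).trans ?_
        apply Real.exp_le_exp.2
        apply mul_le_mul_of_nonneg_left _ hlog
        linarith
      exact mul_le_mul this hSe hS0 (Real.exp_pos _).le
    calc ‖D.E (k - z)‖ * (‖Complex.Gamma (k - z)‖ * ‖(Complex.Gamma z)⁻¹‖)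
        ≤ (Real.exp (L * (k - z.re)) * Real.exp S) *
          (Real.exp ((k - z.re + 1) ^ 2) * (Real.exp ((2 - z.re) ^ 2) * Real.exp (Real.pi * |z.im|))) := by
          apply mul_le_mul h2' _ (by positivity) (by positivity)
          exact mul_le_mul h4 h5 (norm_nonneg _) (Real.exp_pos _).le
      _ = Real.exp (L * (k - z.re) + S + ((k - z.re + 1) ^ 2 + ((2 - z.re) ^ 2 + Real.pi * |z.im|))) := by
          rw [← Real.exp_add, ← Real.exp_add, ← Real.exp_add, ← Real.exp_add]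
      _ ≤ _ := by
          apply Real.exp_le_exp.2
          have a1 : L * (k - z.re) ≤ L * (k + 1) * (1 + ‖z‖) ^ 2 := by
            rw [mul_assoc]
            apply mul_le_mul_of_nonneg_left _ hlog
            nlinarith
          have a2 : S ≤ S * (1 + ‖z‖) ^ 2 := le_mul_of_one_le_right hS0 hsq
          have a3 : (k - z.re + 1) ^ 2 ≤ (k + 3) ^ 2 * (1 + ‖z‖) ^ 2 := by
            rw [← mul_pow]
            apply pow_le_pow_left₀ (by linarith)
            nlinarith
          have a4 : (2 - z.re) ^ 2 ≤ 9 * (1 + ‖z‖) ^ 2 := by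
            have : (9:ℝ) = 3 ^ 2 := by norm_num
            rw [this, ← mul_pow]
            apply pow_le_pow_left₀ (by linarith)
            nlinarith
          have a5 : Real.pi * |z.im| ≤ 4 * (1 + ‖z‖) ^ 2 := by
            have := Real.pi_le_four
            calc Real.pi * |z.im| ≤ 4 * ‖z‖ := by gcongr
              _ ≤ _ := by nlinarith
          have a6 : 0 ≤ |C₁| * (1 + ‖z‖) ^ 2 := by positivity
          have a7 : 0 ≤ |M| * (1 + ‖z‖) ^ 2 := by positivity
          nlinarith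
  · rcases le_or_gt z.re (k+1) with hz2 | hz2
    · refine (h₁ z hz hz2).trans ?_
      have b1 : C₁ ≤ Real.exp |C₁| := by
        have := Real.add_one_le_exp |C₁|
        have := le_abs_self C₁
        linarith
      have b2 : (1 + |z.im|) ^ M ≤ Real.exp (|M| * ‖z‖) := by
        have hpos : 0 < 1 + |z.im| := by positivity
        rw [Real.rpow_def_of_pos hpos]
        apply Real.exp_le_exp.2
        have c1 : Real.log (1 + |z.im|) ≤ |z.im| := by
          have := Real.log_le_sub_one_of_pos hpos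
          linarith
        have c0 : 0 ≤ Real.log (1 + |z.im|) := Real.log_nonneg (by linarith [abs_nonneg z.im])
        calc Real.log (1 + |z.im|) * M ≤ Real.log (1 + |z.im|) * |M| :=
              mul_le_mul_of_nonneg_left (le_abs_self _) c0
          _ ≤ ‖z‖ * |M| := mul_le_mul_of_nonneg_right (c1.trans him) (abs_nonneg _)
          _ = _ := mul_comm _ _
      have b3 : 0 ≤ (1 + |z.im|) ^ M := by positivity
      calc C₁ * (1 + |z.im|) ^ M ≤ Real.exp |C₁| * Real.exp (|M| * ‖z‖) :=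
            mul_le_mul b1 b2 b3 (Real.exp_pos _).le
        _ = Real.exp (|C₁| + |M| * ‖z‖) := by rw [Real.exp_add]
        _ ≤ _ := by
            apply Real.exp_le_exp.2
            have a1 : |C₁| ≤ |C₁| * (1 + ‖z‖) ^ 2 := le_mul_of_one_le_right hC0 hsq
            have a2 : |M| * ‖z‖ ≤ |M| * (1 + ‖z‖) ^ 2 := by gcongr; nlinarith
            have a3 : 0 ≤ (S + L * (k + 1) + (k + 3) ^ 2 + 9 + 4) * (1 + ‖z‖) ^ 2 := by positivity
            nlinarith
    · have h2 := D.E_right' hc hk (z := z) hz2.le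
      have hx : z.re ≤ ‖z‖ := (le_abs_self _).trans hre
      have h3 : c ^ (-(z.re - (k - 1))) ≤ Real.exp (L * z.re) := by
        refine (hcx _ (by linarith)).trans ?_
        apply Real.exp_le_exp.2
        apply mul_le_mul_of_nonneg_left _ hlog
        linarith
      calc ‖D.E z‖ ≤ c ^ (-(z.re - (k - 1))) * S := h2
        _ ≤ Real.exp (L * z.re) * Real.exp S := mul_le_mul h3 hSe hS0 (Real.exp_pos _).le
        _ = Real.exp (L * z.re + S) := by rw [Real.exp_add]
        _ ≤ _ := by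
            apply Real.exp_le_exp.2
            have a1 : L * z.re ≤ L * (k + 1) * (1 + ‖z‖) ^ 2 := by
              rw [mul_assoc]
              apply mul_le_mul_of_nonneg_left _ hlog
              nlinarith
            have a2 : S ≤ S * (1 + ‖z‖) ^ 2 := le_mul_of_one_le_right hS0 hsq
            have a3 : 0 ≤ (|C₁| + |M| + (k + 3) ^ 2 + 9 + 4) * (1 + ‖z‖) ^ 2 := by positivity
            nlinarith

open Pool.Agent.H469R10.HO in
theorem taskF : TaskF := by
  intro c lam k hc hlam hk A hA0 hs ε hε hrel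
  have hlam0 : 0 < lam := by linarith
  let D : Dat c k :=
    { A := A
      u := uu c lam
      ε := ε
      hε := hε
      A0 := hA0
      hu := by
        intro n hn
        unfold uu
        have h1 : (1:ℝ) ≤ n := by exact_mod_cast Nat.one_le_iff_ne_zero.2 hn
        have h2 : (1:ℝ) ≤ (n:ℝ) ^ (1/lam) := Real.one_le_rpow h1 (by positivity)
        nlinarith
      hs := hs
      feq := hrel }
  obtain ⟨C, hC0, hC⟩ := D.E_order hc hk
  refine ⟨D.Λ, D.differentiable_Λ hc hk, D.Λ_feq hc hk, D.Λ_conj, ?_, C, hC⟩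
  intro z hz
  have h := D.E_sum hc hk hz
  refine h.congr_fun fun n => ?_
  split_ifs with hn
  · rw [hn]
    show 0 = ((A 0 : ℝ) : ℂ) / _
    rw [hA0]; simp
  · rw [Complex.cpow_neg]
    rfl

end Pool.Agent.H336R4.F469
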